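import Pool.Agent.H74.TSD.Targets

/-!
# Module PT of the board tsd_modules: counting in the plane
-/

set_option autoImplicit false

open MeasureTheory Set Metric Filter
open scoped ENNReal Pointwise Topology

namespace Pool.Agent.H50.TSD

open Pool.Agent.H74.TSD Pool.Agent.H73.TS

theorem ar_le_add (Z C : Set (ℝ × ℝ)) (hZ : IsCompact Z) (hC : IsCompact C) (x : ℝ × ℝ)
    (hx : x ∈ Z) : ar C ≤ ar (Z + C) := by
  unfold ar
  have h1 : volume C = volume ({x} + C) := by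
    rw [Set.singleton_add, Set.image_add_left]
    exact (measure_preimage_add _ _ _).symm
  rw [h1]
  apply ENNReal.toReal_mono
  · exact (hZ.add hC).measure_lt_top.ne
  · exact measure_mono (Set.add_subset_add_right (Set.singleton_subset_iff.mpr hx))

theorem ev_cont (p : ℝ × ℝ) : Continuous (ev p) := by
  unfold ev
  fun_prop

theorem ev_comb (p x y : ℝ × ℝ) (a b : ℝ) : ev p (a • x + b • y) = a * ev p x + b * ev p y := by
  simp only [ev, Prod.fst_add, Prod.snd_add, Prod.smul_fst, Prod.smul_snd, smul_eq_mul]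
  ring

theorem cvx_le (p : ℝ × ℝ) (t : ℝ) : Convex ℝ {x : ℝ × ℝ | ev p x ≤ t} := by
  intro x hx y hy a b ha hb hab
  simp only [mem_ofPred_eq] at *
  rw [ev_comb]
  have h1 := mul_le_mul_of_nonneg_left hx ha
  have h2 := mul_le_mul_of_nonneg_left hy hb
  have h3 : a * t + b * t = t := by rw [← add_mul, hab, one_mul]
  linarith

theorem cvx_ge (p : ℝ × ℝ) (t : ℝ) : Convex ℝ {x : ℝ × ℝ | t ≤ ev p x} := by
  intro x hx y hy a b ha hb hab
  simp only [mem_ofPred_eq] at *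
  rw [ev_comb]
  have h1 := mul_le_mul_of_nonneg_left hx ha
  have h2 := mul_le_mul_of_nonneg_left hy hb
  have h3 : a * t + b * t = t := by rw [← add_mul, hab, one_mul]
  linarith

theorem sepBy_mono {U : Set (ℝ × ℝ)} {S S' : Finset (ℝ × ℝ)} (h : SepBy U S) (hs : S' ⊆ S) :
    SepBy U S' := by
  intro x hx y hy hxy
  obtain ⟨p, hp, t, h1, h2⟩ := h x (hs hx) y (hs hy) hxy
  exact ⟨p, hp, t, h1, fun z hz => h2 z (hs hz)⟩

theorem pf_PT_aux (h : T_A8) (n : ℕ) : ∀ (U : Set (ℝ × ℝ)) (M : ℝ) (C Z : Set (ℝ × ℝ))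
    (S : Finset (ℝ × ℝ)), S.card = n → 0 < M → Good U M C → IsCompact Z → Convex ℝ Z →
    (S : Set (ℝ × ℝ)) ⊆ Z → S.Nonempty → SepBy U S →
    (S.card : ℝ) ≤ 1 + M * (ar (Z + C) - ar C) := by
  induction n using Nat.strong_induction_on with
  | _ n ih =>
  intro U M C Z S hn hM hG hZ hZc hSZ hS hsep
  by_cases hc : S.card = 1
  · obtain ⟨x, hx⟩ := Finset.card_eq_one.mp hc
    have hxZ : x ∈ Z := hSZ (by simp [hx])
    have h1 := ar_le_add Z C hZ hG.cpt x hxZ
    have h2 : 0 ≤ M * (ar (Z + C) - ar C) := mul_nonneg hM.le (sub_nonneg.mpr h1)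
    rw [hc]
    push_cast
    linarith
  · have h2 : 1 < S.card := by
      have := hS.card_pos
      omega
    obtain ⟨x, hx, y, hy, hxy⟩ := Finset.one_lt_card.mp h2
    obtain ⟨p, hpU, t, hor, hall⟩ := hsep x hx y hy hxy
    have hne : (∃ u ∈ S, ev p u ≤ t) ∧ (∃ v ∈ S, t + 1 ≤ ev p v) := by
      rcases hor with ⟨h3, h4⟩ | ⟨h3, h4⟩
      · exact ⟨⟨x, hx, h3⟩, ⟨y, hy, h4⟩⟩
      · exact ⟨⟨y, hy, h3⟩, ⟨x, hx, h4⟩⟩
    obtain ⟨⟨u, huS, hu⟩, ⟨v, hvS, hv⟩⟩ := hne
    have hp0 : p ≠ 0 := by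
      rintro rfl
      simp only [ev, Prod.fst_zero, Prod.snd_zero, zero_mul, add_zero] at hu hv
      linarith
    classical
    set S1 := S.filter (fun z => ev p z ≤ t) with hS1
    set S2 := S.filter (fun z => ¬ ev p z ≤ t) with hS2
    have hu1 : u ∈ S1 := by
      rw [hS1]
      exact Finset.mem_filter.mpr ⟨huS, hu⟩
    have hv2 : v ∈ S2 := by
      rw [hS2]
      exact Finset.mem_filter.mpr ⟨hvS, by linarith⟩
    have hcard : S1.card + S2.card = S.card := by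
      rw [hS1, hS2]
      exact Finset.card_filter_add_card_filter_not _
    have hc1 : 0 < S1.card := Finset.card_pos.mpr ⟨u, hu1⟩
    have hc2 : 0 < S2.card := Finset.card_pos.mpr ⟨v, hv2⟩
    have hZ1 : IsCompact (Z ∩ {x | ev p x ≤ t}) :=
      hZ.inter_right (isClosed_le (ev_cont p) continuous_const)
    have hZ2 : IsCompact (Z ∩ {x | t + 1 ≤ ev p x}) :=
      hZ.inter_right (isClosed_le continuous_const (ev_cont p))
    have hZ1c : Convex ℝ (Z ∩ {x | ev p x ≤ t}) := hZc.inter (cvx_le p t)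
    have hZ2c : Convex ℝ (Z ∩ {x | t + 1 ≤ ev p x}) := hZc.inter (cvx_ge p (t + 1))
    have hs1 : (S1 : Set (ℝ × ℝ)) ⊆ Z ∩ {x | ev p x ≤ t} := by
      intro z hz
      have hz' : z ∈ S ∧ ev p z ≤ t := by
        rw [hS1] at hz
        exact Finset.mem_filter.mp (Finset.mem_coe.mp hz)
      exact ⟨hSZ (Finset.mem_coe.mpr hz'.1), hz'.2⟩
    have hs2 : (S2 : Set (ℝ × ℝ)) ⊆ Z ∩ {x | t + 1 ≤ ev p x} := by
      intro z hz
      have hz' : z ∈ S ∧ ¬ ev p z ≤ t := by
        rw [hS2] at hz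
        exact Finset.mem_filter.mp (Finset.mem_coe.mp hz)
      refine ⟨hSZ (Finset.mem_coe.mpr hz'.1), ?_⟩
      rcases hall z hz'.1 with h5 | h5
      · exact absurd h5 hz'.2
      · exact h5
    have i1 := ih S1.card (by omega) U M C _ S1 rfl hM hG hZ1 hZ1c hs1 ⟨u, hu1⟩
      (sepBy_mono hsep (by rw [hS1]; exact Finset.filter_subset _ _))
    have i2 := ih S2.card (by omega) U M C _ S2 rfl hM hG hZ2 hZ2c hs2 ⟨v, hv2⟩
      (sepBy_mono hsep (by rw [hS2]; exact Finset.filter_subset _ _))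
    have hA := h Z C p t (1 / (2 * M)) hp0 hZ hZc hG.cpt hG.cvx hG.sym (hG.wid p hpU)
      (by positivity) (hG.mem p hpU) ⟨u, hs1 (Finset.mem_coe.mpr hu1)⟩
      ⟨v, hs2 (Finset.mem_coe.mpr hv2)⟩
    have hA' := mul_le_mul_of_nonneg_left hA hM.le
    have hM1 : M * (2 * (1 / (2 * M))) = 1 := by
      field_simp
    have hcR : (S1.card : ℝ) + S2.card = S.card := by exact_mod_cast hcard
    rw [← hcR]
    nlinarith [i1, i2, hA', hM1]

/-- Module PT -/
theorem pf_PT (h : T_A8) : T_PT := by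
  intro U M C Z S hM hG hZ hZc hSZ hS hsep
  exact pf_PT_aux h S.card U M C Z S rfl hM hG hZ hZc hSZ hS hsep

end Pool.Agent.H50.TSD
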